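import Pool.Agent.L0h94.SP.StmE
import Pool.Agent.N61.PF.Fin1

/-!
# Project SP: from polynomials to curves (module FNS; helper33)
-/

set_option autoImplicit false
set_option linter.all false

open Polynomial IsDedekindDomain NumberField
open scoped Classical

namespace Pool.Agent.L0h33.SP

open Pool.Agent.L0h94.SP
open Pool.Agent.N783.PF
open Pool.Agent.N61.PF

theorem t_FNS (h0 : S_PTS) (h1 : S_MNS) : S_FNS := by
  intro F _ _ a
  obtain ⟨-, C, hC, hlow, hup⟩ := h0 F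
  obtain ⟨c, hc, B₀, hmain⟩ := h1 F a
  set d := Module.finrank ℚ F with hd
  set B₁ : ℕ := max B₀ 1 with hB₁
  refine ⟨c / (C ^ 2 * (C ^ 2 * 2 ^ (6 * d + 2))), by positivity, 27 * (B₁ : ℝ) ^ 6, ?_⟩
  intro Y
  have hfin := crv_finite (F := F) h0 Y
  refine ⟨hfin, ?_⟩
  intro hY
  have hB₁1 : 1 ≤ B₁ := le_max_right _ _
  have hB₁r : (1 : ℝ) ≤ B₁ := by exact_mod_cast hB₁1
  have hY27 : 27 ≤ Y := by
    have : (1 : ℝ) ≤ (B₁ : ℝ) ^ 6 := one_le_pow₀ hB₁r
    linarith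
  obtain ⟨B, hBB, hBY, hYB⟩ := exists_B B₁ Y hB₁1 hY
  have hB1 : 1 ≤ B := hB₁1.trans hBB
  obtain ⟨hfinH, hprop⟩ := hmain B ((le_max_left _ _).trans hBB)
  constructor
  · rw [Set.ncard_pos hfin]
    refine ⟨(1, 1), ⟨?_, ?_, ?_⟩⟩
    · norm_num
    · intro 𝔭 hp _ hcon
      apply hp.ne_top
      rw [Ideal.eq_top_iff_one]
      exact Ideal.pow_le_self (by norm_num) hcon.1
    · intro σ
      constructor
      · simp; linarith
      · simp; linarith
  · have hu := crv_upper hC hup hB1 hYB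
    have hl := ht_lower hC hlow hB1 hfinH
    rw [← hd] at hu hl
    -- the good polynomials give good curves
    have h5 : ({f : (𝓞 F)[X] | Ht 1 B f ∧ Irreducible (fF f) ∧ SelN f (2 ^ a) ∧
        Min 1 f}.ncard : ℝ) ≤
        ({p : 𝓞 F × 𝓞 F | Crv Y p ∧
          Irreducible (fF (X ^ 3 + Polynomial.C p.1 * X + Polynomial.C p.2 : (𝓞 F)[X])) ∧
          SelN (X ^ 3 + Polynomial.C p.1 * X + Polynomial.C p.2 : (𝓞 F)[X]) (2 ^ a)}.ncard : ℝ) := by
      have h6 := Set.ncard_le_ncard_of_injOn (fun f : (𝓞 F)[X] => (f.coeff 1, f.coeff 0))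
        (s := {f : (𝓞 F)[X] | Ht 1 B f ∧ Irreducible (fF f) ∧ SelN f (2 ^ a) ∧ Min 1 f})
        (t := {p : 𝓞 F × 𝓞 F | Crv Y p ∧
          Irreducible (fF (X ^ 3 + Polynomial.C p.1 * X + Polynomial.C p.2 : (𝓞 F)[X])) ∧
          SelN (X ^ 3 + Polynomial.C p.1 * X + Polynomial.C p.2 : (𝓞 F)[X]) (2 ^ a)})
        (fun f hf => by
          have e : (X ^ 3 + Polynomial.C (f.coeff 1) * X + Polynomial.C (f.coeff 0) :
              (𝓞 F)[X]) = f := (eq_pol hf.1).symm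
          refine ⟨crv_of_ht hf.1 hf.2.1 hf.2.2.2 hBY, ?_, ?_⟩
          · show Irreducible (fF (X ^ 3 + Polynomial.C (f.coeff 1) * X +
              Polynomial.C (f.coeff 0) : (𝓞 F)[X]))
            rw [e]
            exact hf.2.1
          · show SelN (X ^ 3 + Polynomial.C (f.coeff 1) * X +
              Polynomial.C (f.coeff 0) : (𝓞 F)[X]) (2 ^ a)
            rw [e]
            exact hf.2.2.1)
        (by
          intro f hf f' hf' h
          have e := Prod.mk.injEq .. ▸ h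
          rw [eq_pol hf.1, eq_pol hf'.1, e.1, e.2])
        (hfin.subset fun p hp => hp.1)
      exact_mod_cast h6
    have hBd : 0 < (B : ℝ) ^ (5 * d) := by
      have : (0 : ℝ) < B := by exact_mod_cast hB1
      positivity
    have h7 : ({p : 𝓞 F × 𝓞 F | Crv Y p}.ncard : ℝ) ≤
        (C ^ 2 * 2 ^ (6 * d + 2)) * (C ^ 2 * ({f : (𝓞 F)[X] | Ht 1 B f}.ncard : ℝ)) :=
      hu.trans (mul_le_mul_of_nonneg_left hl (by positivity))
    calc c / (C ^ 2 * (C ^ 2 * 2 ^ (6 * d + 2))) * ({p : 𝓞 F × 𝓞 F | Crv Y p}.ncard : ℝ)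
        ≤ c / (C ^ 2 * (C ^ 2 * 2 ^ (6 * d + 2))) *
          ((C ^ 2 * 2 ^ (6 * d + 2)) * (C ^ 2 * ({f : (𝓞 F)[X] | Ht 1 B f}.ncard : ℝ))) :=
          mul_le_mul_of_nonneg_left h7 (by positivity)
      _ = c * ({f : (𝓞 F)[X] | Ht 1 B f}.ncard : ℝ) := by
          field_simp
      _ ≤ _ := hprop.trans h5

end Pool.Agent.L0h33.SP
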