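import Pool.Agent.L0h94.SP.StmE
import Pool.Agent.L0h95.NR.COS
import Pool.Agent.L0h90.NR.Pair

/-!
# Project SP: the rank and the 2-Selmer group (module RKN; helper33)
-/

set_option autoImplicit false
set_option linter.all false

open Polynomial IsDedekindDomain NumberField
open scoped Classical

namespace Pool.Agent.L0h33.SP

open Pool.Agent.L0h94.SP
open Pool.Agent.N783.PF (fF)
open Pool.Agent.L0h50.NR (cub crv io th S_PAIR S_HALF)

/-- the norm of `z - w`, `w` a root of `g` -/
theorem norm_sub_root {E : Type} [Field E] {g : E[X]} (hm : g.Monic) (z : E) :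
    Algebra.norm E (AdjoinRoot.mk g (C z - X)) = g.eval z := by
  have h0 : AdjoinRoot.mk g (C z - X) = algebraMap E (AdjoinRoot g) z - AdjoinRoot.root g := by
    rw [map_sub, AdjoinRoot.mk_C, AdjoinRoot.mk_X]
    rfl
  rw [h0]
  let pb := AdjoinRoot.powerBasis hm.ne_zero
  have h1 : (Algebra.leftMulMatrix pb.basis pb.gen).charpoly = minpoly E pb.gen :=
    charpoly_leftMulMatrix pb
  have h2 : minpoly E pb.gen = g := AdjoinRoot.minpoly_powerBasis_gen_of_monic hm
  have h3 : pb.gen = AdjoinRoot.root g := AdjoinRoot.powerBasis_gen hm.ne_zero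
  rw [Algebra.norm_eq_matrix_det pb.basis, map_sub, ← h3]
  have h4 : Algebra.leftMulMatrix pb.basis (algebraMap E (AdjoinRoot g) z) =
      Matrix.scalar _ z := by
    rw [AlgHom.commutes]
    rfl
  rw [h4, ← Matrix.eval_charpoly, h1, h2]

section

variable {F : Type} [Field F] [NumberField F]

theorem fF_cub (A B : 𝓞 F) :
    fF (X ^ 3 + C A * X + C B : (𝓞 F)[X]) = cub (A : F) (B : F) := by
  simp [fF, cub]

theorem cub_monic (A B : F) : (cub A B).Monic := by
  unfold cub; monicity!

theorem cub_deg (A B : F) : (cub A B).natDegree = 3 := by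
  unfold cub; compute_degree!

theorem cub_noroot {A B : F} (h : Irreducible (cub A B)) (x : F) : (cub A B).eval x ≠ 0 := by
  intro hx
  have h1 := natDegree_eq_of_degree_eq_some (degree_eq_one_of_irreducible_of_root h hx)
  rw [cub_deg] at h1
  norm_num at h1

/-- the polynomial of a point -/
noncomputable def hp {A B : F} : (crv A B).toAffine.Point → F[X]
  | .zero => 1
  | .some x _ _ => C x - X

theorem cub_eval {A B x y : F} (h : (crv A B).toAffine.Nonsingular x y) :
    (cub A B).eval x = y ^ 2 := by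
  rw [Pool.Agent.L0h95.NR.crv_eq h]
  simp [cub]

theorem y_ne {A B x y : F} (hirr : Irreducible (cub A B))
    (h : (crv A B).toAffine.Nonsingular x y) : y ≠ 0 := by
  intro hy
  apply cub_noroot hirr x
  rw [cub_eval h, hy]
  ring

/-- `x - Θ` is in the subgroup generated by the points -/
theorem cl_pt {K : Type} [Field K] (f : K[X]) (x y : K) (hy : y ≠ 0) (h : y ^ 2 = f.eval x) :
    Cl K f (C x - X) := by
  refine ⟨[(x, y)], C x - X, ?_, ?_⟩
  · intro p hp
    rw [List.mem_singleton] at hp
    subst hp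
    exact ⟨hy, h⟩
  · simp only [List.map_cons, List.map_nil, List.prod_cons, List.prod_nil, mul_one]
    have : (C x - X : K[X]) * (C x - X) - (C x - X) ^ 2 = 0 := by ring
    rw [this]
    exact dvd_zero _

theorem cl_one {K : Type} [Field K] (f : K[X]) : Cl K f 1 := by
  refine ⟨[], 1, ?_, ?_⟩
  · intro p hp
    exact absurd hp (List.not_mem_nil)
  · simp

theorem cl_hp {A B : F} (hirr : Irreducible (cub A B)) (P : (crv A B).toAffine.Point)
    {K : Type} [Field K] (φ : F →+* K) : Cl K ((cub A B).map φ) ((hp P).map φ) := by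
  rcases P with _ | ⟨x, y, h⟩
  · simp only [hp, Polynomial.map_one]
    exact cl_one _
  · have e : (hp (WeierstrassCurve.Affine.Point.some x y h)).map φ = C (φ x) - X := by
      simp [hp]
    rw [e]
    apply cl_pt _ _ (φ y)
    · intro h0
      exact y_ne hirr h ((map_eq_zero φ).mp h0)
    · rw [eval_map, eval₂_at_apply, cub_eval h, map_pow]

theorem cop_hp {A B : F} (hirr : Irreducible (cub A B)) (P : (crv A B).toAffine.Point) :
    IsCoprime (hp P) (cub A B) := by
  rcases P with _ | ⟨x, y, h⟩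
  · exact isCoprime_one_left
  · simp only [hp]
    refine IsCoprime.symm ((Irreducible.coprime_iff_not_dvd hirr).mpr ?_)
    intro hd
    have h1 : (C x - X : F[X]).natDegree = 1 := by
      have : (C x - X : F[X]) = -(X - C x) := by ring
      rw [this, natDegree_neg, natDegree_X_sub_C]
    have h2 : (C x - X : F[X]) ≠ 0 := by
      intro h0
      rw [h0] at h1
      simp at h1
    have h3 := natDegree_le_of_dvd hd h2
    rw [cub_deg, h1] at h3
    omega

theorem nrm_hp {A B : F} (P : (crv A B).toAffine.Point) :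
    IsSquare (Algebra.norm F (AdjoinRoot.mk (cub A B) (hp P))) := by
  rcases P with _ | ⟨x, y, h⟩
  · simp only [hp, map_one]
    exact ⟨1, by ring⟩
  · simp only [hp]
    rw [norm_sub_root (cub_monic A B), cub_eval h]
    exact ⟨y, by ring⟩

theorem mk_hp {A B x y : F} (h : (crv A B).toAffine.Nonsingular x y) :
    AdjoinRoot.mk (cub A B) (hp (WeierstrassCurve.Affine.Point.some x y h)) =
      io A B x - th A B := by
  simp only [hp, map_sub, AdjoinRoot.mk_C, AdjoinRoot.mk_X]

/-- different classes -/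
theorem dbl_of_sq (hHALF : S_HALF) (hPAIR : S_PAIR) {A B : F} (hΔ : 4 * A ^ 3 + 27 * B ^ 2 ≠ 0)
    (hirr : Irreducible (cub A B)) (P P' : (crv A B).toAffine.Point)
    (h : IsSquare (AdjoinRoot.mk (cub A B) (hp P * hp P'))) :
    ∃ Q : (crv A B).toAffine.Point, Q + Q + P' = P := by
  rw [map_mul] at h
  rcases P with _ | ⟨x, y, hxy⟩
  · rcases P' with _ | ⟨x', y', hxy'⟩
    · exact ⟨0, by rw [add_zero, zero_add]⟩
    · rw [mk_hp] at h
      simp only [hp, map_one, one_mul] at h
      obtain ⟨Q, hQ⟩ := hHALF F A B hΔ x' y' hxy' h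
      refine ⟨-Q, ?_⟩
      rw [← hQ]
      have : -Q + -Q + (Q + Q) = 0 := by abel
      rw [this]
      rfl
  · rcases P' with _ | ⟨x', y', hxy'⟩
    · rw [mk_hp] at h
      simp only [hp, map_one, mul_one] at h
      obtain ⟨Q, hQ⟩ := hHALF F A B hΔ x y hxy h
      refine ⟨Q, ?_⟩
      rw [← hQ]
      exact add_zero _
    · rw [mk_hp, mk_hp] at h
      exact hPAIR F A B hΔ x y x' y' hxy hxy' (y_ne hirr hxy) (y_ne hirr hxy') h

end

theorem rkn (hHALF : S_HALF) (hPAIR : S_PAIR) : S_RKN := by
  intro F _ _ A B N hΔ0 hirr hsel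
  rw [fF_cub] at hirr
  obtain ⟨R, hRc, hR1, -, hR3⟩ := hsel
  have hΔ : 4 * (A : F) ^ 3 + 27 * (B : F) ^ 2 ≠ 0 := by
    intro h
    apply hΔ0
    apply RingOfIntegers.coe_injective
    change algebraMap (𝓞 F) F (4 * A ^ 3 + 27 * B ^ 2) = algebraMap (𝓞 F) F 0
    rw [map_add, map_mul, map_mul, map_pow, map_pow, map_zero, map_ofNat, map_ofNat]
    exact h
  have hFG : AddGroup.FG (crv (A : F) (B : F)).toAffine.Point := by
    apply Pool.Agent.Q286.EQ.mordell_weil F (crv (A : F) (B : F))
    intro h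
    apply hΔ
    have h1 : (crv (A : F) (B : F)).Δ = -16 * (4 * (A : F) ^ 3 + 27 * (B : F) ^ 2) := by
      simp only [crv, WeierstrassCurve.Δ, WeierstrassCurve.b₂, WeierstrassCurve.b₄,
        WeierstrassCurve.b₆, WeierstrassCurve.b₈]
      ring
    rw [h1] at h
    rcases mul_eq_zero.mp h with h2 | h2
    · norm_num at h2
    · exact h2
  obtain ⟨S₀, hS₀, hinc⟩ :=
    Pool.Agent.L0h95.AR.mw (crv (A : F) (B : F)).toAffine.Point hFG
  -- the classes of the points are in the Selmer group
  have hS : ∀ P : (crv (A : F) (B : F)).toAffine.Point, ∃ h' ∈ R,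
      IsSquare (AdjoinRoot.mk (cub (A : F) (B : F)) (hp P * h')) := by
    intro P
    have h1 : SelH (X ^ 3 + C A * X + C B : (𝓞 F)[X]) (hp P) := by
      refine ⟨?_, ?_, ?_, ?_⟩
      · rw [fF_cub]
        exact cop_hp hirr P
      · rw [fF_cub]
        exact nrm_hp P
      · intro w
        unfold ClF
        rw [fF_cub]
        exact cl_hp hirr P _
      · intro σ
        rw [fF_cub]
        exact cl_hp hirr P _
    have h2 := hR3 _ h1
    rwa [fF_cub] at h2
  choose g hgR hg using hS
  have hinj : Set.InjOn g (S₀ : Set (crv (A : F) (B : F)).toAffine.Point) := by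
    intro P hP P' hP' he
    by_contra hne
    have h1 := hg P
    have h2 := hg P'
    rw [← he] at h2
    obtain ⟨hco, -⟩ := hR1 _ (hgR P)
    rw [fF_cub] at hco
    -- `g P` is invertible
    obtain ⟨u, v, huv⟩ := hco
    have h3 : AdjoinRoot.mk (cub (A : F) (B : F)) (g P) *
        AdjoinRoot.mk (cub (A : F) (B : F)) u = 1 := by
      have h4 := congrArg (AdjoinRoot.mk (cub (A : F) (B : F))) huv
      rw [map_add, map_mul, map_mul, AdjoinRoot.mk_self, mul_zero, add_zero, map_one,
        mul_comm] at h4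
      exact h4
    have h5 : IsSquare (AdjoinRoot.mk (cub (A : F) (B : F)) (hp P * hp P')) := by
      apply Pool.Agent.L0h95.NR.isSquare_cancel _ h3
      have h6 := h1.mul h2
      have h8 : AdjoinRoot.mk (cub (A : F) (B : F)) (g P) ^ 2 *
          AdjoinRoot.mk (cub (A : F) (B : F)) (hp P * hp P') =
          AdjoinRoot.mk (cub (A : F) (B : F)) (hp P * g P) *
          AdjoinRoot.mk (cub (A : F) (B : F)) (hp P' * g P) := by
        rw [← map_pow, ← map_mul, ← map_mul]
        congr 1
        ring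
      rw [h8]
      exact h6
    obtain ⟨Q, hQ⟩ := dbl_of_sq hHALF hPAIR hΔ hirr P P' h5
    exact hinc P hP P' hP' hne Q hQ
  have h7 : S₀.card ≤ R.card := by
    refine Finset.card_le_card_of_injOn g (fun P _ => hgR P) hinj
  rw [hRc, hS₀] at h7
  exact h7

/-- **RKN** -/
theorem t_RKN : S_RKN := rkn Pool.Agent.L0h90.NR.half Pool.Agent.L0h90.NR.pair

end Pool.Agent.L0h33.SP
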